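import Pool.Agent.Zk11.QD.Zp

/-! Comparison of a torus with a bigger torus (Combes-Thomas estimate). -/

set_option autoImplicit false
set_option linter.unusedSectionVars false

open scoped BigOperators Topology
open MeasureTheory Filter

namespace Pool.Agent.Zk96.SZ

open Pool.Agent.W788.MFP.Four (T e)
open Pool.Agent.Zk11.QD

section geo

variable {d L : ℕ} [NeZero L]

/-- periodic distance to the origin -/
noncomputable def rh (x : T d L) : ℝ := ∑ i, |(((x i).valMinAbs : ℤ) : ℝ)|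

theorem vone : |((((1 : ZMod L)).valMinAbs : ℤ) : ℝ)| ≤ 1 := by
  have h1 : ((1 : ZMod L).valMinAbs).natAbs ≤ 1 := by
    rw [ZMod.valMinAbs_natAbs_eq_min]
    refine (min_le_left _ _).trans ?_
    rw [ZMod.val_one_eq_one_mod]
    exact Nat.mod_le _ _
  have h2 : |((1 : ZMod L).valMinAbs)| ≤ 1 := by
    rw [Int.abs_eq_natAbs]
    exact_mod_cast h1
  exact_mod_cast h2

theorem vadd (a b : ZMod L) : |(((a + b).valMinAbs : ℤ) : ℝ)| ≤
    |((a.valMinAbs : ℤ) : ℝ)| + |((b.valMinAbs : ℤ) : ℝ)| := by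
  have h1 := ZMod.natAbs_valMinAbs_add_le a b
  have h2 : |(a + b).valMinAbs| ≤ |a.valMinAbs + b.valMinAbs| := by
    rw [Int.abs_eq_natAbs, Int.abs_eq_natAbs]
    exact_mod_cast h1
  have h3 : (|((a + b).valMinAbs : ℝ)| : ℝ) ≤ |((a.valMinAbs : ℤ) : ℝ) + ((b.valMinAbs : ℤ) : ℝ)| := by
    exact_mod_cast h2
  exact h3.trans (abs_add_le _ _)

theorem vneg (a : ZMod L) : |(((-a).valMinAbs : ℤ) : ℝ)| = |((a.valMinAbs : ℤ) : ℝ)| := by
  have h1 := ZMod.natAbs_valMinAbs_neg a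
  have h2 : |(-a).valMinAbs| = |a.valMinAbs| := by
    rw [Int.abs_eq_natAbs, Int.abs_eq_natAbs, h1]
  exact_mod_cast h2

theorem rh_add (x : T d L) (i : Fin d) : rh (x + Pi.single i 1) ≤ rh x + 1 := by
  classical
  unfold rh
  have h1 : ∀ j, |((((x + Pi.single i 1 : T d L) j).valMinAbs : ℤ) : ℝ)| ≤
      |(((x j).valMinAbs : ℤ) : ℝ)| + (if j = i then 1 else 0) := by
    intro j
    by_cases hj : j = i
    · subst hj
      rw [if_pos rfl, Pi.add_apply, Pi.single_eq_same]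
      have := vadd (x j) 1
      have := vone (L := L)
      linarith
    · rw [if_neg hj, Pi.add_apply, Pi.single_eq_of_ne hj, add_zero, add_zero]
  refine (Finset.sum_le_sum fun j _ => h1 j).trans (le_of_eq ?_)
  rw [Finset.sum_add_distrib, Finset.sum_ite_eq', if_pos (Finset.mem_univ _)]

theorem rh_sub (x : T d L) (i : Fin d) : rh (x - Pi.single i 1) ≤ rh x + 1 := by
  classical
  unfold rh
  have h1 : ∀ j, |((((x - Pi.single i 1 : T d L) j).valMinAbs : ℤ) : ℝ)| ≤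
      |(((x j).valMinAbs : ℤ) : ℝ)| + (if j = i then 1 else 0) := by
    intro j
    by_cases hj : j = i
    · subst hj
      rw [if_pos rfl, Pi.sub_apply, Pi.single_eq_same, sub_eq_add_neg]
      have := vadd (x j) (-1)
      have := vneg (1 : ZMod L)
      have := vone (L := L)
      linarith
    · rw [if_neg hj, Pi.sub_apply, Pi.single_eq_of_ne hj, sub_zero, add_zero]
  refine (Finset.sum_le_sum fun j _ => h1 j).trans (le_of_eq ?_)
  rw [Finset.sum_add_distrib, Finset.sum_ite_eq', if_pos (Finset.mem_univ _)]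

theorem rh_add' (x : T d L) (i : Fin d) : rh x ≤ rh (x + Pi.single i 1) + 1 := by
  have h := rh_sub (x + Pi.single i 1) i
  rwa [add_sub_cancel_right] at h

theorem rh_sub' (x : T d L) (i : Fin d) : rh x ≤ rh (x - Pi.single i 1) + 1 := by
  have h := rh_add (x - Pi.single i 1) i
  rwa [sub_add_cancel] at h

theorem rh_zero : rh (0 : T d L) = 0 := by
  unfold rh
  simp

theorem rh_ge (x : T d L) (i : Fin d) : |(((x i).valMinAbs : ℤ) : ℝ)| ≤ rh x := by
  unfold rh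
  exact Finset.single_le_sum (f := fun i => |(((x i).valMinAbs : ℤ) : ℝ)|)
    (fun _ _ => abs_nonneg _) (Finset.mem_univ i)

end geo

theorem nsq {d : ℕ} (a b : Fin d → ℂ) :
    ‖∑ i, (a i + b i)‖ ^ 2 ≤ 2 * d * ∑ i, (‖a i‖ ^ 2 + ‖b i‖ ^ 2) := by
  have h1 : ‖∑ i, (a i + b i)‖ ≤ ∑ i, (‖a i‖ + ‖b i‖) :=
    (norm_sum_le _ _).trans (Finset.sum_le_sum fun i _ => norm_add_le _ _)
  have h2 := pow_le_pow_left₀ (norm_nonneg _) h1 2
  have h3 := sq_sum_le_card_mul_sum_sq (s := (Finset.univ : Finset (Fin d)))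
    (f := fun i => ‖a i‖ + ‖b i‖)
  rw [Finset.card_univ, Fintype.card_fin] at h3
  refine h2.trans (h3.trans ?_)
  have h4 : ∑ i, (‖a i‖ + ‖b i‖) ^ 2 ≤ 2 * ∑ i, (‖a i‖ ^ 2 + ‖b i‖ ^ 2) := by
    rw [Finset.mul_sum]
    refine Finset.sum_le_sum fun i _ => ?_
    nlinarith [sq_nonneg (‖a i‖ - ‖b i‖)]
  calc (d : ℝ) * ∑ i, (‖a i‖ + ‖b i‖) ^ 2 ≤ d * (2 * ∑ i, (‖a i‖ ^ 2 + ‖b i‖ ^ 2)) :=
        mul_le_mul_of_nonneg_left h4 (by positivity)
    _ = _ := by ring

section ct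

variable {d L : ℕ} [NeZero L]

/-- the weighted mass -/
noncomputable def Em (z : ℂ) (σ : ℝ) (V : T d L → ℝ) (κ : ℝ) (x : T d L) : ℝ :=
  Real.exp (κ * rh x) ^ 2 * ‖uu z σ V x‖ ^ 2

theorem wdiff (κ s t : ℝ) (hκ : 0 ≤ κ) (hκ1 : κ ≤ 1) (h1 : s ≤ t + 1) (h2 : t ≤ s + 1) (u : ℂ) :
    ‖((Real.exp (κ * s) : ℝ) : ℂ) * u - ((Real.exp (κ * t) : ℝ) : ℂ) * u‖ ^ 2 ≤
      4 * κ ^ 2 * ‖((Real.exp (κ * s) : ℝ) : ℂ) * u‖ ^ 2 := by
  have e1 : ((Real.exp (κ * s) : ℝ) : ℂ) * u - ((Real.exp (κ * t) : ℝ) : ℂ) * u =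
      ((1 - Real.exp (κ * (t - s)) : ℝ) : ℂ) * (((Real.exp (κ * s) : ℝ) : ℂ) * u) := by
    have : Real.exp (κ * t) = Real.exp (κ * (t - s)) * Real.exp (κ * s) := by
      rw [← Real.exp_add]
      congr 1
      ring
    rw [this]
    push_cast
    ring
  rw [e1, norm_mul, mul_pow]
  refine mul_le_mul_of_nonneg_right ?_ (by positivity)
  rw [Complex.norm_real, Real.norm_eq_abs, sq_abs]
  have h3 : |κ * (t - s)| ≤ κ := by
    rw [abs_mul, abs_of_nonneg hκ]
    have : |t - s| ≤ 1 := by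
      rw [abs_le]
      constructor <;> linarith
    nlinarith
  have h4 := Real.abs_exp_sub_one_le (h3.trans hκ1)
  have h5 : |Real.exp (κ * (t - s)) - 1| ≤ 2 * κ := by linarith
  have h6 := abs_le.1 h5
  nlinarith [h6.1, h6.2]

theorem ct (hd : 1 ≤ d) (z : ℂ) (hz : 0 < z.im) (hz1 : z.im ≤ 1) (σ : ℝ) (V : T d L → ℝ) :
    ∑ x, Em z σ V (z.im / (8 * d)) x ≤ 4 / z.im ^ 2 := by
  classical
  have hdR : (1 : ℝ) ≤ d := by exact_mod_cast hd
  set κ : ℝ := z.im / (8 * d) with hκ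
  have hκ0 : 0 ≤ κ := by positivity
  have hκ1 : κ ≤ 1 := by
    rw [hκ, div_le_one (by positivity)]
    linarith
  set u := uu z σ V with hu
  set w : T d L → ℂ := fun x => ((Real.exp (κ * rh x) : ℝ) : ℂ) * u x with hw
  have hwE : ∀ x, ‖w x‖ ^ 2 = Em z σ V κ x := by
    intro x
    simp only [hw]
    unfold Em
    rw [norm_mul, mul_pow, Complex.norm_real, Real.norm_eq_abs, sq_abs]
  set W : ℝ := ∑ x, ‖w x‖ ^ 2 with hW
  have hWe : ∑ x, Em z σ V κ x = W := Finset.sum_congr rfl fun x _ => (hwE x).symm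
  rw [hWe]
  have hc := Hz_coercive hz (σ := σ) V w
  -- the equation for w
  set A : T d L → Fin d → ℂ := fun x i =>
    ((Real.exp (κ * rh (x + Pi.single i 1)) : ℝ) : ℂ) * u (x + Pi.single i 1) -
      ((Real.exp (κ * rh x) : ℝ) : ℂ) * u (x + Pi.single i 1) with hA
  set B : T d L → Fin d → ℂ := fun x i =>
    ((Real.exp (κ * rh (x - Pi.single i 1)) : ℝ) : ℂ) * u (x - Pi.single i 1) -
      ((Real.exp (κ * rh x) : ℝ) : ℂ) * u (x - Pi.single i 1) with hB
  have heq : ∀ x, Hz z σ V w x = (if x = 0 then 1 else 0) - ∑ i, (A x i + B x i) := by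
    intro x
    have h1 := uu_eq z hz σ V x
    have h2 : Hz z σ V w x = ((Real.exp (κ * rh x) : ℝ) : ℂ) * Hz z σ V u x -
        ∑ i, (A x i + B x i) := by
      unfold Hz
      have e1 : ∑ i, (A x i + B x i) = ∑ i : Fin d, (w (x + Pi.single i 1) + w (x - Pi.single i 1)) -
          ((Real.exp (κ * rh x) : ℝ) : ℂ) *
            ∑ i : Fin d, (u (x + Pi.single i 1) + u (x - Pi.single i 1)) := by
        rw [Finset.mul_sum, ← Finset.sum_sub_distrib]
        refine Finset.sum_congr rfl fun i _ => ?_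
        simp only [hA, hB, hw]
        ring
      rw [e1]
      simp only [hw]
      ring
    rw [h2, h1]
    by_cases hx : x = 0
    · subst hx
      simp [rh_zero]
    · simp [hx]
  have hb : ∀ x, ‖Hz z σ V w x‖ ^ 2 ≤ 2 * (if x = 0 then 1 else 0) +
      2 * (2 * d * ∑ i, (4 * κ ^ 2 * ‖w (x + Pi.single i 1)‖ ^ 2 +
        4 * κ ^ 2 * ‖w (x - Pi.single i 1)‖ ^ 2)) := by
    intro x
    rw [heq x]
    have h1 := norm_sub_le (if x = 0 then (1 : ℂ) else 0) (∑ i, (A x i + B x i))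
    have h2 := pow_le_pow_left₀ (norm_nonneg _) h1 2
    have h3 : ‖(if x = 0 then (1 : ℂ) else 0)‖ ^ 2 = if x = 0 then (1 : ℝ) else 0 := by
      split_ifs <;> simp
    have h4 := nsq (A x) (B x)
    have h5 : ∑ i, (‖A x i‖ ^ 2 + ‖B x i‖ ^ 2) ≤
        ∑ i, (4 * κ ^ 2 * ‖w (x + Pi.single i 1)‖ ^ 2 +
        4 * κ ^ 2 * ‖w (x - Pi.single i 1)‖ ^ 2) := by
      refine Finset.sum_le_sum fun i _ => add_le_add ?_ ?_
      · exact wdiff κ _ _ hκ0 hκ1 (rh_add x i) (rh_add' x i) _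
      · exact wdiff κ _ _ hκ0 hκ1 (rh_sub x i) (rh_sub' x i) _
    have h6 : ‖∑ i, (A x i + B x i)‖ ^ 2 ≤ 2 * d *
        ∑ i, (4 * κ ^ 2 * ‖w (x + Pi.single i 1)‖ ^ 2 +
        4 * κ ^ 2 * ‖w (x - Pi.single i 1)‖ ^ 2) :=
      h4.trans (mul_le_mul_of_nonneg_left h5 (by positivity))
    rw [← h3]
    nlinarith [sq_nonneg (‖(if x = 0 then (1 : ℂ) else 0)‖ - ‖∑ i, (A x i + B x i)‖)]
  have hs : ∑ x, ‖Hz z σ V w x‖ ^ 2 ≤ 2 + 32 * κ ^ 2 * d ^ 2 * W := by
    refine (Finset.sum_le_sum fun x _ => hb x).trans (le_of_eq ?_)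
    rw [Finset.sum_add_distrib, ← Finset.mul_sum, Finset.sum_ite_eq', if_pos (Finset.mem_univ _),
      ← Finset.mul_sum, ← Finset.mul_sum, Finset.sum_comm]
    have h1 : ∀ i : Fin d, ∑ x : T d L, (4 * κ ^ 2 * ‖w (x + Pi.single i 1)‖ ^ 2 +
        4 * κ ^ 2 * ‖w (x - Pi.single i 1)‖ ^ 2) = 8 * κ ^ 2 * W := by
      intro i
      rw [Finset.sum_add_distrib, ← Finset.mul_sum, ← Finset.mul_sum]
      have h2 : ∑ x : T d L, ‖w (x + Pi.single i 1)‖ ^ 2 = W :=
        Equiv.sum_comp (Equiv.addRight (Pi.single i 1 : T d L)) (fun x => ‖w x‖ ^ 2)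
      have h3 : ∑ x : T d L, ‖w (x - Pi.single i 1)‖ ^ 2 = W :=
        Equiv.sum_comp (Equiv.subRight (Pi.single i 1 : T d L)) (fun x => ‖w x‖ ^ 2)
      rw [h2, h3]
      ring
    simp only [h1]
    rw [Finset.sum_const, Finset.card_univ, Fintype.card_fin, nsmul_eq_mul]
    ring
  have hk : 32 * κ ^ 2 * d ^ 2 = z.im ^ 2 / 2 := by
    rw [hκ]
    field_simp
    ring
  rw [hk] at hs
  rw [le_div_iff₀ (by positivity)]
  nlinarith [hc.trans hs]

end ct


section cmp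

variable {d L M : ℕ} [NeZero L] [NeZero M]

/-- the embedding of the smaller torus -/
def io (M : ℕ) (y : T d L) : T d M := pr M (lift y)

theorem lift_io (hLM : L ≤ M) (y : T d L) : lift (io M y) = lift y := by
  funext i
  unfold io lift pr
  rw [ZMod.valMinAbs_spec]
  refine ⟨rfl, ?_⟩
  have h := (y i).valMinAbs_mem_Ioc
  rw [Set.mem_Ioc] at h ⊢
  have : (L : ℤ) ≤ M := by exact_mod_cast hLM
  constructor
  · linarith [h.1]
  · linarith [h.2]

theorem io_inj (hLM : L ≤ M) : Function.Injective (io (d := d) (L := L) M) := by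
  intro a b hab
  have h := congrArg lift hab
  rw [lift_io hLM, lift_io hLM] at h
  exact lift_inj h

theorem rh_io (hLM : L ≤ M) (y : T d L) : rh (io M y) = rh y := by
  have h := lift_io hLM y
  unfold rh
  refine Finset.sum_congr rfl fun i _ => ?_
  have h1 : (io M y i).valMinAbs = (y i).valMinAbs := congrFun h i
  rw [h1]

theorem io_zero (M : ℕ) : io (d := d) (L := L) M 0 = 0 := by
  unfold io
  have : lift (0 : T d L) = 0 := by
    funext i
    simp [lift]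
  rw [this, pr_zero]

theorem io_zero_iff (hLM : L ≤ M) (y : T d L) : io M y = 0 ↔ y = 0 := by
  constructor
  · intro h
    exact io_inj hLM (h.trans (io_zero M).symm)
  · intro h
    rw [h, io_zero]

theorem io_add (y : T d L) (i : Fin d) (h : 2 * ((y i).valMinAbs + 1) ≤ L) :
    io M (y + Pi.single i 1) = io M y + Pi.single i 1 := by
  have h1 : lift (y + Pi.single i 1) = lift y + Pi.single i 1 := by
    funext j
    unfold lift
    by_cases hj : j = i
    · subst hj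
      rw [Pi.add_apply, Pi.single_eq_same, Pi.add_apply, Pi.single_eq_same, ZMod.valMinAbs_spec]
      refine ⟨?_, ?_⟩
      · simp
      · have h2 := (y j).valMinAbs_mem_Ioc
        rw [Set.mem_Ioc] at h2 ⊢
        constructor
        · linarith [h2.1]
        · linarith
    · rw [Pi.add_apply, Pi.single_eq_of_ne hj, Pi.add_apply, Pi.single_eq_of_ne hj, add_zero,
        add_zero]
  unfold io
  rw [h1, pr_add, pr_single]

theorem io_sub (y : T d L) (i : Fin d) (h : -(L : ℤ) < 2 * ((y i).valMinAbs - 1)) :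
    io M (y - Pi.single i 1) = io M y - Pi.single i 1 := by
  have h1 : lift (y - Pi.single i 1) = lift y - Pi.single i 1 := by
    funext j
    unfold lift
    by_cases hj : j = i
    · subst hj
      rw [Pi.sub_apply, Pi.single_eq_same, Pi.sub_apply, Pi.single_eq_same, ZMod.valMinAbs_spec]
      refine ⟨?_, ?_⟩
      · simp
      · have h2 := (y j).valMinAbs_mem_Ioc
        rw [Set.mem_Ioc] at h2 ⊢
        constructor
        · linarith
        · linarith [h2.2]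
    · rw [Pi.sub_apply, Pi.single_eq_of_ne hj, Pi.sub_apply, Pi.single_eq_of_ne hj, sub_zero,
        sub_zero]
  unfold io
  rw [h1, pr_sub, pr_single]

theorem far_add (y : T d L) (i : Fin d) (h : ¬ 2 * ((y i).valMinAbs + 1) ≤ L) :
    ((L : ℝ) - 2) / 2 ≤ rh y := by
  refine le_trans ?_ (rh_ge y i)
  refine le_trans ?_ (le_abs_self _)
  push Not at h
  have h1 : (L : ℝ) < 2 * (((y i).valMinAbs : ℤ) : ℝ) + 2 := by
    have : (L : ℤ) < 2 * (y i).valMinAbs + 2 := by linarith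
    exact_mod_cast this
  linarith

theorem far_sub (y : T d L) (i : Fin d) (h : ¬ -(L : ℤ) < 2 * ((y i).valMinAbs - 1)) :
    ((L : ℝ) - 2) / 2 ≤ rh y := by
  refine le_trans ?_ (rh_ge y i)
  refine le_trans ?_ (neg_le_abs _)
  push Not at h
  have h1 : 2 * (((y i).valMinAbs : ℤ) : ℝ) - 2 ≤ -(L : ℝ) := by
    have : 2 * (y i).valMinAbs - 2 ≤ -(L : ℤ) := by linarith
    exact_mod_cast this
  linarith

theorem tail_io (_hLM : L ≤ M) (x : T d M) (hx : ∀ y : T d L, io M y ≠ x) :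
    ((L : ℝ) - 4) / 2 ≤ rh x := by
  by_contra hcon
  push Not at hcon
  refine hx (pr L (lift x)) ?_
  have h1 : lift (pr L (lift x)) = lift x := by
    funext i
    have h2 := rh_ge x i
    have h3 : |(((x i).valMinAbs : ℤ) : ℝ)| < ((L : ℝ) - 4) / 2 := lt_of_le_of_lt h2 hcon
    have h4 := abs_lt.1 h3
    unfold lift pr
    rw [ZMod.valMinAbs_spec]
    refine ⟨rfl, ?_⟩
    rw [Set.mem_Ioc]
    constructor
    · have : -(L : ℝ) < (((x i).valMinAbs : ℤ) : ℝ) * 2 := by linarith [h4.1]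
      exact_mod_cast this
    · have : (((x i).valMinAbs : ℤ) : ℝ) * 2 ≤ L := by linarith [h4.2]
      exact_mod_cast this
  unfold io
  rw [h1, pr_lift]

variable (z : ℂ) (σ : ℝ) (V : T d M → ℝ)

theorem Em_nonneg (κ : ℝ) (x : T d M) : 0 ≤ Em z σ V κ x := by
  unfold Em
  positivity

theorem u_Em (κ R : ℝ) (hκ : 0 ≤ κ) (x : T d M) (hx : R ≤ rh x) :
    ‖uu z σ V x‖ ^ 2 ≤ Real.exp (-(κ * R)) ^ 2 * Em z σ V κ x := by
  unfold Em
  rw [← mul_assoc, ← mul_pow, ← Real.exp_add]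
  have h1 : 1 ≤ Real.exp (-(κ * R) + κ * rh x) := by
    apply Real.one_le_exp
    nlinarith
  have h2 : (1 : ℝ) ≤ Real.exp (-(κ * R) + κ * rh x) ^ 2 := by
    nlinarith
  nlinarith [sq_nonneg ‖uu z σ V x‖]

theorem dif_le (κ R : ℝ) (hκ : 0 ≤ κ) (a b : T d M) (ha : a ≠ b → R ≤ rh a)
    (hb : a ≠ b → R ≤ rh b) :
    ‖uu z σ V a - uu z σ V b‖ ^ 2 ≤ 2 * Real.exp (-(κ * R)) ^ 2 *
      (Em z σ V κ a + Em z σ V κ b) := by
  by_cases hab : a = b
  · subst hab
    rw [sub_self, norm_zero]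
    have := Em_nonneg z σ V κ a
    rw [zero_pow two_ne_zero]
    exact mul_nonneg (by positivity) (add_nonneg this this)
  · have h1 := u_Em z σ V κ R hκ a (ha hab)
    have h2 := u_Em z σ V κ R hκ b (hb hab)
    have h3 := norm_sub_le (uu z σ V a) (uu z σ V b)
    have h4 := pow_le_pow_left₀ (norm_nonneg _) h3 2
    nlinarith [sq_nonneg (‖uu z σ V a‖ - ‖uu z σ V b‖)]

/-- the two Green functions are close -/
theorem close_io (hd : 1 ≤ d) (hz : 0 < z.im) (hz1 : z.im ≤ 1) (hLM : L ≤ M) :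
    ∑ y : T d L, ‖uu z σ V (io M y) - uu z σ (fun t : T d L => V (io M t)) y‖ ^ 2 ≤
      64 * (d : ℝ) ^ 2 / z.im ^ 4 *
        Real.exp (-(z.im / (8 * d) * (((L : ℝ) - 4) / 2))) ^ 2 := by
  classical
  have hdR : (1 : ℝ) ≤ d := by exact_mod_cast hd
  set κ : ℝ := z.im / (8 * d) with hκ
  have hκ0 : 0 ≤ κ := by positivity
  set R : ℝ := ((L : ℝ) - 4) / 2 with hR
  set W : T d L → ℝ := fun t => V (io M t) with hW
  set u := uu z σ V with hu
  set E2 : ℝ := Real.exp (-(κ * R)) ^ 2 with hE2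
  have hct : ∑ x, Em z σ V κ x ≤ 4 / z.im ^ 2 := ct hd z hz hz1 σ V
  set g : T d L → ℂ := fun y => u (io M y) - uu z σ W y with hg
  have hc := Hz_coercive hz (σ := σ) W g
  set P : T d L → Fin d → ℂ := fun y i => u (io M (y + Pi.single i 1)) -
    u (io M y + Pi.single i 1) with hP
  set Q : T d L → Fin d → ℂ := fun y i => u (io M (y - Pi.single i 1)) -
    u (io M y - Pi.single i 1) with hQ
  have heq : ∀ y, Hz z σ W g y = -∑ i, (P y i + Q y i) := by
    intro y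
    have h1 := uu_eq z hz σ V (io M y)
    have h2 := uu_eq z hz σ W y
    have h3 : (if io M y = 0 then (1 : ℂ) else 0) = if y = 0 then 1 else 0 := by
      simp only [io_zero_iff hLM y]
    rw [h3, ← h2] at h1
    have h4 : Hz z σ W g y = Hz z σ W (fun t => u (io M t)) y - Hz z σ W (uu z σ W) y := by
      simp only [hg]
      exact Hz_sub z σ W (fun t => u (io M t)) (uu z σ W) y
    have h5 : Hz z σ W (fun t => u (io M t)) y = Hz z σ V u (io M y) -
        ∑ i, (P y i + Q y i) := by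
      unfold Hz
      have e1 : ∑ i, (P y i + Q y i) = ∑ i : Fin d, (u (io M (y + Pi.single i 1)) +
          u (io M (y - Pi.single i 1))) - ∑ i : Fin d, (u (io M y + Pi.single i 1) +
          u (io M y - Pi.single i 1)) := by
        rw [← Finset.sum_sub_distrib]
        refine Finset.sum_congr rfl fun i _ => ?_
        simp only [hP, hQ]
        ring
      rw [e1]
      simp only [hW]
      ring
    rw [h4, h5, h1]
    ring
  have hb : ∀ y, ‖Hz z σ W g y‖ ^ 2 ≤ 2 * d * ∑ i,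
      (2 * E2 * (Em z σ V κ (io M (y + Pi.single i 1)) + Em z σ V κ (io M y + Pi.single i 1)) +
      2 * E2 * (Em z σ V κ (io M (y - Pi.single i 1)) +
        Em z σ V κ (io M y - Pi.single i 1))) := by
    intro y
    rw [heq y, norm_neg]
    refine (nsq (P y) (Q y)).trans (mul_le_mul_of_nonneg_left ?_ (by positivity))
    refine Finset.sum_le_sum fun i _ => add_le_add ?_ ?_
    · have hfar : io M (y + Pi.single i 1) ≠ io M y + Pi.single i 1 →
          ((L : ℝ) - 2) / 2 ≤ rh y := by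
        intro hne
        by_cases hcase : 2 * ((y i).valMinAbs + 1) ≤ L
        · exact absurd (io_add y i hcase) hne
        · exact far_add y i hcase
      refine dif_le z σ V κ R hκ0 _ _ (fun hne => ?_) (fun hne => ?_)
      · have h1 := hfar hne
        rw [rh_io hLM]
        have h2 := rh_add' y i
        rw [hR]
        linarith
      · have h1 := hfar hne
        have h2 := rh_add' (io M y) i
        rw [rh_io hLM] at h2
        rw [hR]
        linarith
    · have hfar : io M (y - Pi.single i 1) ≠ io M y - Pi.single i 1 →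
          ((L : ℝ) - 2) / 2 ≤ rh y := by
        intro hne
        by_cases hcase : -(L : ℤ) < 2 * ((y i).valMinAbs - 1)
        · exact absurd (io_sub y i hcase) hne
        · exact far_sub y i hcase
      refine dif_le z σ V κ R hκ0 _ _ (fun hne => ?_) (fun hne => ?_)
      · have h1 := hfar hne
        rw [rh_io hLM]
        have h2 := rh_sub' y i
        rw [hR]
        linarith
      · have h1 := hfar hne
        have h2 := rh_sub' (io M y) i
        rw [rh_io hLM] at h2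
        rw [hR]
        linarith
  have hE2n : 0 ≤ E2 := by positivity
  have hs : ∑ y, ‖Hz z σ W g y‖ ^ 2 ≤ 64 * (d : ℝ) ^ 2 / z.im ^ 2 * E2 := by
    refine (Finset.sum_le_sum fun y _ => hb y).trans ?_
    rw [← Finset.mul_sum, Finset.sum_comm]
    have hinj : ∀ f : T d L → T d M, Function.Injective f →
        ∑ y, Em z σ V κ (f y) ≤ 4 / z.im ^ 2 := by
      intro f hf
      refine le_trans ?_ hct
      rw [← Finset.sum_image (f := Em z σ V κ) (s := Finset.univ) (g := f)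
        (fun a _ b _ hab => hf hab)]
      exact Finset.sum_le_sum_of_subset_of_nonneg (Finset.subset_univ _)
        (fun x _ _ => Em_nonneg z σ V κ x)
    have h1 : ∀ i : Fin d, ∑ y : T d L,
        (2 * E2 * (Em z σ V κ (io M (y + Pi.single i 1)) + Em z σ V κ (io M y + Pi.single i 1)) +
        2 * E2 * (Em z σ V κ (io M (y - Pi.single i 1)) +
          Em z σ V κ (io M y - Pi.single i 1))) ≤ 32 / z.im ^ 2 * E2 := by
      intro i
      rw [Finset.sum_add_distrib, ← Finset.mul_sum, ← Finset.mul_sum, Finset.sum_add_distrib,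
        Finset.sum_add_distrib]
      have k1 := hinj (fun y => io M (y + Pi.single i 1))
        ((io_inj hLM).comp (add_left_injective _))
      have k2 := hinj (fun y => io M y + Pi.single i 1)
        ((add_left_injective _).comp (io_inj hLM))
      have k3 := hinj (fun y => io M (y - Pi.single i 1))
        ((io_inj hLM).comp (sub_left_injective))
      have k4 := hinj (fun y => io M y - Pi.single i 1)
        ((sub_left_injective).comp (io_inj hLM))
      have k5 : 32 / z.im ^ 2 * E2 = 2 * E2 * (4 / z.im ^ 2 + 4 / z.im ^ 2) +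
          2 * E2 * (4 / z.im ^ 2 + 4 / z.im ^ 2) := by ring
      rw [k5]
      refine add_le_add ?_ ?_
      · exact mul_le_mul_of_nonneg_left (add_le_add k1 k2) (by positivity)
      · exact mul_le_mul_of_nonneg_left (add_le_add k3 k4) (by positivity)
    calc 2 * (d : ℝ) * ∑ i : Fin d, ∑ y : T d L,
        (2 * E2 * (Em z σ V κ (io M (y + Pi.single i 1)) + Em z σ V κ (io M y + Pi.single i 1)) +
        2 * E2 * (Em z σ V κ (io M (y - Pi.single i 1)) +
          Em z σ V κ (io M y - Pi.single i 1))) ≤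
        2 * (d : ℝ) * ∑ _i : Fin d, 32 / z.im ^ 2 * E2 :=
          mul_le_mul_of_nonneg_left (Finset.sum_le_sum fun i _ => h1 i) (by positivity)
      _ = _ := by
          rw [Finset.sum_const, Finset.card_univ, Fintype.card_fin, nsmul_eq_mul]
          ring
  have h7 := hc.trans hs
  have h8 : 64 * (d : ℝ) ^ 2 / z.im ^ 4 * E2 = (64 * (d : ℝ) ^ 2 / z.im ^ 2 * E2) / z.im ^ 2 := by
    field_simp
  rw [h8, le_div_iff₀ (by positivity), mul_comm]
  exact h7

theorem e_io {n : ℕ} [NeZero (n * L)] (p y : T d L) :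
    e (fun i => ((n * (p i).val : ℕ) : ZMod (n * L))) (io (n * L) y) = e p y := by
  have hn : (n : ℂ) ≠ 0 := by
    have : n * L ≠ 0 := NeZero.ne _
    have : n ≠ 0 := fun h => this (by rw [h, zero_mul])
    exact_mod_cast this
  have hL : (L : ℂ) ≠ 0 := by exact_mod_cast NeZero.ne L
  set S : ℤ := ∑ i, ((p i).val : ℤ) * (y i).valMinAbs with hS
  have h1 : e p y = Complex.exp (2 * Real.pi * Complex.I * S / L) := by
    unfold e
    have h2 : ∑ i, p i * y i = ((S : ℤ) : ZMod L) := by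
      rw [hS]
      push_cast
      refine Finset.sum_congr rfl fun i _ => ?_
      simp
    rw [h2, ZMod.stdAddChar_coe]
  rw [h1]
  unfold e
  have h2 : ∑ i, ((n * (p i).val : ℕ) : ZMod (n * L)) * (io (n * L) y) i =
      (((n : ℤ) * S : ℤ) : ZMod (n * L)) := by
    rw [hS, Finset.mul_sum]
    push_cast
    refine Finset.sum_congr rfl fun i _ => ?_
    unfold io pr lift
    push_cast
    ring
  rw [h2, ZMod.stdAddChar_coe]
  congr 1
  push_cast
  field_simp

end cmp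

section fin

variable {d L M : ℕ} [NeZero L] [NeZero M]

theorem det_cmp (hd : 1 ≤ d) (z : ℂ) (hz : 0 < z.im) (hz1 : z.im ≤ 1) (σ : ℝ) (V : T d M → ℝ)
    (hLM : L ≤ M) (χ : T d M → ℂ) (ψ : T d L → ℂ) (hχ : ∀ x, ‖χ x‖ = 1)
    (hψ : ∀ y, χ (io M y) = ψ y) :
    ‖∑ x, χ x * ((‖uu z σ V x‖ ^ 2 : ℝ) : ℂ) -
      ∑ y, ψ y * ((‖uu z σ (fun t : T d L => V (io M t)) y‖ ^ 2 : ℝ) : ℂ)‖ ≤
      Real.exp (-(z.im / (8 * d) * (((L : ℝ) - 4) / 2))) ^ 2 * (4 / z.im ^ 2) +
      16 * d / z.im ^ 3 * Real.exp (-(z.im / (8 * d) * (((L : ℝ) - 4) / 2))) := by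
  classical
  set κ : ℝ := z.im / (8 * d) with hκ
  have hκ0 : 0 ≤ κ := by positivity
  set R : ℝ := ((L : ℝ) - 4) / 2 with hR
  set W : T d L → ℝ := fun t => V (io M t) with hW
  set u := uu z σ V with hu
  set E1 : ℝ := Real.exp (-(κ * R)) with hE1
  have hE1n : 0 ≤ E1 := (Real.exp_pos _).le
  set I : Finset (T d M) := (Finset.univ : Finset (T d L)).image (io M) with hI
  have hψn : ∀ y, ‖ψ y‖ = 1 := fun y => by rw [← hψ, hχ]
  have hsplit : ∑ x, χ x * ((‖u x‖ ^ 2 : ℝ) : ℂ) = ∑ x ∈ Iᶜ, χ x * ((‖u x‖ ^ 2 : ℝ) : ℂ) +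
      ∑ y, ψ y * ((‖u (io M y)‖ ^ 2 : ℝ) : ℂ) := by
    rw [← Finset.sum_compl_add_sum I, hI, Finset.sum_image (fun a _ b _ hab => io_inj hLM hab)]
    congr 1
    exact Finset.sum_congr rfl fun y _ => by rw [hψ]
  have htail : ‖∑ x ∈ Iᶜ, χ x * ((‖u x‖ ^ 2 : ℝ) : ℂ)‖ ≤ E1 ^ 2 * (4 / z.im ^ 2) := by
    have h1 : ‖∑ x ∈ Iᶜ, χ x * ((‖u x‖ ^ 2 : ℝ) : ℂ)‖ ≤ ∑ x ∈ Iᶜ, E1 ^ 2 * Em z σ V κ x := by
      refine (norm_sum_le _ _).trans (Finset.sum_le_sum fun x hx => ?_)
      rw [norm_mul, hχ, one_mul, Complex.norm_real, Real.norm_eq_abs,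
        abs_of_nonneg (by positivity)]
      refine u_Em z σ V κ R hκ0 x (tail_io hLM x fun y hy => ?_)
      rw [Finset.mem_compl] at hx
      exact hx (Finset.mem_image.2 ⟨y, Finset.mem_univ _, hy⟩)
    refine h1.trans ?_
    rw [← Finset.mul_sum]
    refine mul_le_mul_of_nonneg_left ?_ (by positivity)
    refine le_trans ?_ (ct hd z hz hz1 σ V)
    exact Finset.sum_le_sum_of_subset_of_nonneg (Finset.subset_univ _)
      (fun x _ _ => Em_nonneg z σ V κ x)
  have hmain : ‖∑ y, ψ y * ((‖u (io M y)‖ ^ 2 : ℝ) : ℂ) -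
      ∑ y, ψ y * ((‖uu z σ W y‖ ^ 2 : ℝ) : ℂ)‖ ≤ 16 * d / z.im ^ 3 * E1 := by
    rw [← Finset.sum_sub_distrib]
    have h3 : ‖∑ y : T d L, (ψ y * ((‖u (io M y)‖ ^ 2 : ℝ) : ℂ) -
        ψ y * ((‖uu z σ W y‖ ^ 2 : ℝ) : ℂ))‖ ≤ ∑ y : T d L,
        ‖u (io M y) - uu z σ W y‖ * (‖u (io M y)‖ + ‖uu z σ W y‖) := by
      refine (norm_sum_le _ _).trans (Finset.sum_le_sum fun x _ => ?_)
      rw [← mul_sub, norm_mul, hψn, one_mul, ← Complex.ofReal_sub, Complex.norm_real,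
        Real.norm_eq_abs]
      have e1 : ‖u (io M x)‖ ^ 2 - ‖uu z σ W x‖ ^ 2 =
          (‖u (io M x)‖ - ‖uu z σ W x‖) * (‖u (io M x)‖ + ‖uu z σ W x‖) := by ring
      rw [e1, abs_mul, abs_of_nonneg (by positivity :
        0 ≤ ‖u (io M x)‖ + ‖uu z σ W x‖)]
      refine mul_le_mul_of_nonneg_right ?_ (by positivity)
      exact abs_norm_sub_norm_le _ _
    refine h3.trans ?_
    have h4 := Finset.sum_mul_sq_le_sq_mul_sq Finset.univ
      (fun y : T d L => ‖u (io M y) - uu z σ W y‖) (fun y => ‖u (io M y)‖ + ‖uu z σ W y‖)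
    have h5 := close_io z σ V hd hz hz1 hLM
    have h6 : ∑ y : T d L, (‖u (io M y)‖ + ‖uu z σ W y‖) ^ 2 ≤ 4 / z.im ^ 2 := by
      have k1 : ∀ y : T d L, (‖u (io M y)‖ + ‖uu z σ W y‖) ^ 2 ≤
          2 * ‖u (io M y)‖ ^ 2 + 2 * ‖uu z σ W y‖ ^ 2 := by
        intro y
        nlinarith [sq_nonneg (‖u (io M y)‖ - ‖uu z σ W y‖)]
      refine (Finset.sum_le_sum fun y _ => k1 y).trans ?_
      rw [Finset.sum_add_distrib, ← Finset.mul_sum, ← Finset.mul_sum]
      have k2 := uu_norm z hz σ W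
      have k3 : ∑ y : T d L, ‖u (io M y)‖ ^ 2 ≤ 1 / z.im ^ 2 := by
        refine le_trans ?_ (uu_norm z hz σ V)
        rw [← Finset.sum_image (f := fun x => ‖u x‖ ^ 2) (s := Finset.univ) (g := io M)
          (fun a _ b _ hab => io_inj hLM hab)]
        exact Finset.sum_le_sum_of_subset_of_nonneg (Finset.subset_univ _)
          (fun x _ _ => by positivity)
      have k4 : 4 / z.im ^ 2 = 2 * (1 / z.im ^ 2) + 2 * (1 / z.im ^ 2) := by ring
      rw [k4]
      linarith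
    have h7 : (∑ y : T d L, ‖u (io M y) - uu z σ W y‖ * (‖u (io M y)‖ + ‖uu z σ W y‖)) ^ 2 ≤
        (16 * d / z.im ^ 3 * E1) ^ 2 := by
      refine h4.trans ?_
      have h8 : (16 * d / z.im ^ 3 * E1) ^ 2 =
          (64 * (d : ℝ) ^ 2 / z.im ^ 4 * E1 ^ 2) * (4 / z.im ^ 2) := by
        field_simp
        ring
      rw [h8]
      exact mul_le_mul h5 h6 (Finset.sum_nonneg fun _ _ => by positivity) (by positivity)
    exact (pow_le_pow_iff_left₀ (Finset.sum_nonneg fun _ _ => by positivity) (by positivity)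
      two_ne_zero).1 h7
  rw [hsplit, add_sub_assoc]
  exact (norm_add_le _ _).trans (add_le_add htail hmain)

theorem io_meas (M : ℕ) : Measurable fun V : T d M → ℝ => fun t : T d L => V (io M t) := by
  fun_prop

theorem io_map (μ : Measure ℝ) [IsProbabilityMeasure μ] (hLM : L ≤ M) :
    (PL (T d M) μ).map (fun V => fun t : T d L => V (io M t)) = PL (T d L) μ := by
  have hmap := Measure.map_infinitePi_infinitePi_of_inj (P := fun _ : T d M => μ)
    (io_inj (d := d) (L := L) hLM)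
  rw [Measure.infinitePi_eq_pi (μ := fun _ : T d L => μ),
    Measure.infinitePi_eq_pi (μ := fun _ : T d M => μ)] at hmap
  exact hmap

theorem avg1_int (μ : Measure ℝ) [IsProbabilityMeasure μ] (z : ℂ) (hz : 0 < z.im) (σ : ℝ)
    (χ : T d M → ℂ) (x : T d M) :
    Integrable (fun V : T d M → ℝ => χ x * ((‖uu z σ V x‖ ^ 2 : ℝ) : ℂ)) (PL (T d M) μ) := by
  have hm : Measurable fun V : T d M → ℝ => ‖uu z σ V x‖ ^ 2 :=
    (uu_meas z σ x).norm.pow_const 2
  have hi : Integrable (fun V : T d M → ℝ => ‖uu z σ V x‖ ^ 2) (PL (T d M) μ) := by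
    refine Integrable.mono' (integrable_const (1 / z.im ^ 2)) hm.aestronglyMeasurable ?_
    refine Eventually.of_forall fun V => ?_
    rw [Real.norm_eq_abs, abs_of_nonneg (by positivity)]
    exact uu_le z hz σ _ x
  exact (hi.ofReal (𝕜 := ℂ)).const_mul (χ x)

theorem avg1 (μ : Measure ℝ) [IsProbabilityMeasure μ] (z : ℂ) (hz : 0 < z.im) (σ : ℝ)
    (χ : T d M → ℂ) :
    ∫ V, ∑ x : T d M, χ x * ((‖uu z σ V x‖ ^ 2 : ℝ) : ℂ) ∂(PL (T d M) μ) =
      ∑ x : T d M, χ x * ((∫ V, ‖uu z σ V x‖ ^ 2 ∂(PL (T d M) μ) : ℝ) : ℂ) := by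
  rw [integral_finsetSum _ fun x _ => avg1_int μ z hz σ χ x]
  refine Finset.sum_congr rfl fun x _ => ?_
  rw [integral_const_mul, integral_complex_ofReal]

theorem sum_meas (z : ℂ) (σ : ℝ) (χ : T d M → ℂ) :
    Measurable fun V : T d M → ℝ => ∑ x : T d M, χ x * ((‖uu z σ V x‖ ^ 2 : ℝ) : ℂ) := by
  refine Finset.measurable_fun_sum _ fun x _ => ?_
  exact (Complex.measurable_ofReal.comp ((uu_meas z σ x).norm.pow_const 2)).const_mul _

theorem sum_int (μ : Measure ℝ) [IsProbabilityMeasure μ] (z : ℂ) (hz : 0 < z.im) (σ : ℝ)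
    (χ : T d M → ℂ) :
    Integrable (fun V : T d M → ℝ => ∑ x : T d M, χ x * ((‖uu z σ V x‖ ^ 2 : ℝ) : ℂ))
      (PL (T d M) μ) :=
  integrable_finsetSum _ fun x _ => avg1_int μ z hz σ χ x

theorem avg_diff (μ : Measure ℝ) [IsProbabilityMeasure μ] (z : ℂ) (hz : 0 < z.im) (σ : ℝ)
    (hLM : L ≤ M) (χ : T d M → ℂ) (ψ : T d L → ℂ) :
    ∑ x : T d M, χ x * ((∫ V, ‖uu z σ V x‖ ^ 2 ∂(PL (T d M) μ) : ℝ) : ℂ) -
      ∑ y : T d L, ψ y * ((∫ V, ‖uu z σ V y‖ ^ 2 ∂(PL (T d L) μ) : ℝ) : ℂ) =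
    ∫ V, (∑ x : T d M, χ x * ((‖uu z σ V x‖ ^ 2 : ℝ) : ℂ) -
      ∑ y : T d L, ψ y * ((‖uu z σ (fun t : T d L => V (io M t)) y‖ ^ 2 : ℝ) : ℂ))
      ∂(PL (T d M) μ) := by
  have h1 : ∫ V : T d M → ℝ, ∑ y : T d L, ψ y *
      ((‖uu z σ (fun t : T d L => V (io M t)) y‖ ^ 2 : ℝ) : ℂ) ∂(PL (T d M) μ) =
      ∫ W, ∑ y : T d L, ψ y * ((‖uu z σ W y‖ ^ 2 : ℝ) : ℂ) ∂(PL (T d L) μ) := by
    rw [← io_map μ hLM, integral_map (io_meas M).aemeasurable
      (sum_meas z σ ψ).aestronglyMeasurable]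
  have h2 : Integrable (fun V : T d M → ℝ => ∑ y : T d L, ψ y *
      ((‖uu z σ (fun t : T d L => V (io M t)) y‖ ^ 2 : ℝ) : ℂ)) (PL (T d M) μ) := by
    have h3 := sum_int μ z hz σ ψ
    rw [← io_map μ hLM] at h3
    exact h3.comp_aemeasurable (io_meas M).aemeasurable
  rw [integral_sub (sum_int μ z hz σ χ) h2, h1, avg1 μ z hz σ χ, avg1 μ z hz σ ψ]

end fin

/-- **Comparison of a torus with a bigger torus**, strong form. -/
theorem size_transfer_strong (d : ℕ) (hd : 1 ≤ d) (L n : ℕ) [NeZero L]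
    [NeZero (n * L)] (μ : Measure ℝ) [IsProbabilityMeasure μ] (E η σ : ℝ) (hη : 0 < η)
    (hη1 : η ≤ 1) (p : T d L) :
    ‖(η : ℂ) * ∑ x : T d (n * L), e (fun i => ((n * (p i).val : ℕ) : ZMod (n * L))) x *
        ((∫ V, ‖uu ((E : ℂ) + η * Complex.I) σ V x‖ ^ 2 ∂(PL (T d (n * L)) μ) : ℝ) : ℂ) -
      (η : ℂ) * ∑ x : T d L, e p x *
        ((∫ V, ‖uu ((E : ℂ) + η * Complex.I) σ V x‖ ^ 2 ∂(PL (T d L) μ) : ℝ) : ℂ)‖ ≤
      (84 * d) * (1 / η) ^ 2 * Real.exp (-(η * L / (16 * d))) := by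
  have hdR : (1 : ℝ) ≤ d := by exact_mod_cast hd
  set z : ℂ := (E : ℂ) + η * Complex.I with hzdef
  have hzim : z.im = η := by simp [hzdef]
  have hz : 0 < z.im := by rw [hzim]; exact hη
  have hz1 : z.im ≤ 1 := by rw [hzim]; exact hη1
  have hn0 : n ≠ 0 := fun h => NeZero.ne (n * L) (by rw [h, zero_mul])
  have hLM : L ≤ n * L := Nat.le_mul_of_pos_left L (Nat.pos_of_ne_zero hn0)
  have hL1 : (1 : ℝ) ≤ L := by exact_mod_cast Nat.one_le_iff_ne_zero.2 (NeZero.ne L)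
  rw [← mul_sub, avg_diff μ z hz σ hLM, norm_mul, Complex.norm_real, Real.norm_eq_abs,
    abs_of_pos hη]
  set E1 : ℝ := Real.exp (-(z.im / (8 * d) * (((L : ℝ) - 4) / 2))) with hE1
  have hint := norm_integral_le_of_norm_le_const (μ := PL (T d (n * L)) μ)
    (f := fun V => (∑ x : T d (n * L), e (fun i => ((n * (p i).val : ℕ) : ZMod (n * L))) x *
      ((‖uu z σ V x‖ ^ 2 : ℝ) : ℂ) -
      ∑ y : T d L, e p y * ((‖uu z σ (fun t : T d L => V (io (n * L) t)) y‖ ^ 2 : ℝ) : ℂ)))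
    (C := E1 ^ 2 * (4 / z.im ^ 2) + 16 * d / z.im ^ 3 * E1)
    (Eventually.of_forall fun V => det_cmp hd z hz hz1 σ V hLM _ _ (fun x => e_norm _ _)
      (fun y => e_io p y))
  rw [probReal_univ, mul_one] at hint
  set X : ℝ := Real.exp (-(η * L / (16 * d))) with hX
  have hXpos : 0 < X := Real.exp_pos _
  have hX1 : X ≤ 1 := by
    rw [hX]
    apply Real.exp_le_one_iff.2
    have : 0 ≤ η * L / (16 * d) := by positivity
    linarith
  have hE : E1 ≤ 3 * X := by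
    have h1 : E1 = Real.exp (η / (4 * d)) * X := by
      rw [hE1, hX, ← Real.exp_add, hzim]
      congr 1
      field_simp
      ring
    rw [h1]
    refine mul_le_mul_of_nonneg_right ?_ hXpos.le
    have h2 : η / (4 * d) ≤ 1 := by
      rw [div_le_one (by positivity)]
      linarith
    refine (Real.exp_le_exp.2 h2).trans ?_
    have := Real.exp_one_lt_d9
    linarith
  have hE0 : 0 ≤ E1 := (Real.exp_pos _).le
  have hE2 : E1 ^ 2 ≤ 9 * X := by
    have h1 := pow_le_pow_left₀ hE0 hE 2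
    nlinarith
  calc η * ‖∫ V, (∑ x : T d (n * L), e (fun i => ((n * (p i).val : ℕ) : ZMod (n * L))) x *
      ((‖uu z σ V x‖ ^ 2 : ℝ) : ℂ) -
      ∑ y : T d L, e p y * ((‖uu z σ (fun t : T d L => V (io (n * L) t)) y‖ ^ 2 : ℝ) : ℂ))
      ∂(PL (T d (n * L)) μ)‖ ≤ η * (E1 ^ 2 * (4 / z.im ^ 2) + 16 * d / z.im ^ 3 * E1) :=
        mul_le_mul_of_nonneg_left hint hη.le
    _ ≤ η * ((9 * X) * (4 / z.im ^ 2) + 16 * d / z.im ^ 3 * (3 * X)) := by
        refine mul_le_mul_of_nonneg_left (add_le_add ?_ ?_) hη.le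
        · exact mul_le_mul_of_nonneg_right hE2 (by positivity)
        · exact mul_le_mul_of_nonneg_left hE (by positivity)
    _ = (36 * η + 48 * d) * (1 / η) ^ 2 * X := by
        rw [hzim]
        field_simp
        ring
    _ ≤ (84 * d) * (1 / η) ^ 2 * X := by
        refine mul_le_mul_of_nonneg_right (mul_le_mul_of_nonneg_right ?_ (by positivity)) hXpos.le
        nlinarith

/-- **Comparison of a torus with a bigger torus.** -/
theorem size_transfer (d : ℕ) (hd : 1 ≤ d) : ∃ C : ℝ, 0 < C ∧ ∀ (L n : ℕ) [NeZero L]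
    [NeZero (n * L)] (μ : Measure ℝ) [IsProbabilityMeasure μ] (E η σ : ℝ), 0 < η → η ≤ 1 →
    ∀ p : T d L,
    ‖(η : ℂ) * ∑ x : T d (n * L), e (fun i => ((n * (p i).val : ℕ) : ZMod (n * L))) x *
        ((∫ V, ‖uu ((E : ℂ) + η * Complex.I) σ V x‖ ^ 2 ∂(PL (T d (n * L)) μ) : ℝ) : ℂ) -
      (η : ℂ) * ∑ x : T d L, e p x *
        ((∫ V, ‖uu ((E : ℂ) + η * Complex.I) σ V x‖ ^ 2 ∂(PL (T d L) μ) : ℝ) : ℂ)‖ ≤
      C * (1 / η) ^ 8 * (L : ℝ) ^ (2 * d) * Real.exp (-(η * L / C)) := by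
  have hdR : (1 : ℝ) ≤ d := by exact_mod_cast hd
  refine ⟨84 * d, by positivity, ?_⟩
  intro L n _ _ μ _ E η σ hη hη1 p
  have hL1 : (1 : ℝ) ≤ L := by exact_mod_cast Nat.one_le_iff_ne_zero.2 (NeZero.ne L)
  refine (size_transfer_strong d hd L n μ E η σ hη hη1 p).trans ?_
  set X : ℝ := Real.exp (-(η * L / (16 * d))) with hX
  have hXpos : 0 < X := Real.exp_pos _
  have hXC : X ≤ Real.exp (-(η * L / (84 * d))) := by
    rw [hX]
    apply Real.exp_le_exp.2
    have : η * L / (84 * d) ≤ η * L / (16 * d) := by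
      apply div_le_div_of_nonneg_left (by positivity) (by positivity)
      nlinarith
    linarith
  have hinv : 1 ≤ 1 / η := by
    rw [le_div_iff₀ hη]
    linarith
  have hpow : (1 / η) ^ 2 ≤ (1 / η) ^ 8 := pow_le_pow_right₀ hinv (by norm_num)
  have hLp : (1 : ℝ) ≤ (L : ℝ) ^ (2 * d) := one_le_pow₀ hL1
  have h1 : (84 * (d : ℝ)) * (1 / η) ^ 2 ≤ (84 * d) * (1 / η) ^ 8 * (L : ℝ) ^ (2 * d) := by
    have h2 : (84 * (d : ℝ)) * (1 / η) ^ 2 ≤ (84 * d) * (1 / η) ^ 8 :=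
      mul_le_mul_of_nonneg_left hpow (by positivity)
    refine h2.trans ?_
    exact le_mul_of_one_le_right (by positivity) hLp
  exact mul_le_mul h1 hXC hXpos.le (by positivity)

end Pool.Agent.Zk96.SZ
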