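import Pool.Agent.H622R2.MatGraph

/-!
# Adjacency matrices
-/

namespace Pool.Agent.Zk96

open Pool.Agent.H622R2 (entry)

/-- `M`, a list of rows, is the adjacency matrix of a simple graph: it is square and symmetric,
and its diagonal entries are `false`. -/
def IsAdjMatrix (M : List (List Bool)) : Prop :=
  (∀ r ∈ M, r.length = M.length) ∧
  (∀ i, i < M.length → ∀ j, j < M.length → entry M i j = entry M j i) ∧
  ∀ i, i < M.length → entry M i i = false

end Pool.Agent.Zk96
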