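import Pool.Agent.Zk96.Pi3Defs
import Pool.Agent.H596R2.Sigma2
import Pool.Agent.H601R2.Pi2
import Pool.Agent.Zk96.SD.Conc

/-!
# The class `Π₃ᵖ`: a hard problem, and membership
-/

namespace Pool.Agent.NPC.P3

open Turing CL S2 Pool.Agent.Zk96.SD

/-! ### Membership -/

/-- A problem about decodable data of the form `∀ u ∃ v ∀ w, R (a, u, v, w)`, where `u`, `v`, `w`
range over the strings of length `p(|a|)` and `R` is computable in polynomial time, is in
`Π₃ᵖ`. -/
theorem inPi3P_of {α : Type} [TEnc α] [TDec α] {P : α → Prop}
    {R : α × List Bool × List Bool × List Bool → Bool} (hR : Poly R) (p : Polynomial ℕ)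
    (h : ∀ a, P a ↔ ∀ u : List Bool, u.length = p.eval (sz a) →
      ∃ v : List Bool, v.length = p.eval (sz a) ∧
        ∀ w : List Bool, w.length = p.eval (sz a) → R (a, u, v, w) = true) : InPi3 (lang P) := by
  have hthird : Poly (fun y : List Bool => (unpair y).2.length / 3) :=
    Poly.div (Poly.length (Poly.snd poly_unpair)) (Poly.const 3)
  have h1 : Poly (fun y : List Bool => (unpair y).2.take ((unpair y).2.length / 3)) :=
    P2.poly_take (Poly.snd poly_unpair) hthird
  have h2 : Poly (fun y : List Bool => (unpair y).2.drop ((unpair y).2.length / 3)) :=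
    P2.poly_drop (Poly.snd poly_unpair) hthird
  have h3 : Poly (fun y : List Bool => ((unpair y).2.drop ((unpair y).2.length / 3)).take
      ((unpair y).2.length / 3)) := P2.poly_take h2 hthird
  have h4 : Poly (fun y : List Bool => ((unpair y).2.drop ((unpair y).2.length / 3)).drop
      ((unpair y).2.length / 3)) := P2.poly_drop h2 hthird
  refine ⟨fun y => [match unbits α (unpair y).1 with
      | none => false
      | some a => R (a, (unpair y).2.take ((unpair y).2.length / 3),
          ((unpair y).2.drop ((unpair y).2.length / 3)).take ((unpair y).2.length / 3),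
          ((unpair y).2.drop ((unpair y).2.length / 3)).drop ((unpair y).2.length / 3))], p, ?_,
          fun x => ?_⟩
  · refine polyTime_of_poly (Poly.optCases (g := fun _ => false)
      (h := fun y a => R (a, (unpair y).2.take ((unpair y).2.length / 3),
          ((unpair y).2.drop ((unpair y).2.length / 3)).take ((unpair y).2.length / 3),
          ((unpair y).2.drop ((unpair y).2.length / 3)).drop ((unpair y).2.length / 3)))
          (poly_unbits.comp (Poly.fst poly_unpair))
          (Poly.const _) ?_)
    exact hR.comp (Poly.pair (Poly.snd Poly.id) (Poly.pair (h1.comp (Poly.fst Poly.id))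
      (Poly.pair (h3.comp (Poly.fst Poly.id)) (h4.comp (Poly.fst Poly.id)))))
  · rw [mem_lang_iff]
    cases hx : unbits α x with
    | none =>
      simp only [reduceCtorEq, false_and, exists_false, false_iff]
      intro hall
      obtain ⟨v, hv, hv'⟩ := hall (List.replicate (p.eval x.length) false) (by simp)
      have hv'' := hv' (List.replicate (p.eval x.length) false) (by simp)
      simp only [unpair_pairBits, hx] at hv''
      simp at hv''
    | some a =>
      simp only [Option.some.injEq, exists_eq_left']
      have e1 : sz a = x.length := by rw [← bits_length, bits_of_unbits hx]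
      rw [h a, e1]
      refine forall₂_congr fun u hu => exists_congr fun v => and_congr_right fun hv =>
        forall₂_congr fun w hw => ?_
      have e2 : (u ++ (v ++ w)).length / 3 = u.length := by
        rw [List.length_append, List.length_append]
        omega
      have e3 : u.length = v.length := by omega
      simp only [unpair_pairBits, hx, e2, List.take_left', List.drop_left', e3,
        List.cons.injEq, and_true]

/-! ### Hardness -/

section Compact

variable {U : Type} [TEnc U]

/-- Renaming all variables by numbers. -/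
noncomputable def compact3 (s t : List Unit) (D : List (List (Bool × (ℕ ⊕ U)))) : QI :=
  (s, t, () :: (uvars D).map (fun _ => ()),
    D.map (fun c => c.map (ren (s.length + t.length) (uvars D))))

theorem compact3_pr {s t : List Unit} {D : List (List (Bool × (ℕ ⊕ U)))}
    (hD : ∀ c ∈ D, ∀ l ∈ c, ∀ i, l.2 = Sum.inl i → i < s.length + t.length) :
    EAEPr (compact3 s t D) := by
  intro c hc l hl
  simp only [compact3, nv, List.length_cons, List.length_map] at hc ⊢
  rw [List.mem_map] at hc
  obtain ⟨t', ht', rfl⟩ := hc
  rw [List.mem_map] at hl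
  obtain ⟨⟨b, v⟩, hl', rfl⟩ := hl
  cases v with
  | inl i =>
    have := hD t' ht' _ hl' i rfl
    simp only [ren, Sum.elim_inl]
    omega
  | inr u =>
    have := index_lt (mem_uvars ht' hl')
    simp only [ren, Sum.elim_inr]
    omega

theorem compact3_iff {s t : List Unit} {D : List (List (Bool × (ℕ ⊕ U)))}
    (hD : ∀ c ∈ D, ∀ l ∈ c, ∀ i, l.2 = Sum.inl i → i < s.length + t.length) :
    (∃ σ : ℕ → Bool, ∀ τ : ℕ → Bool, ∃ X : U → Bool,
      Holds (Sum.elim (mix s.length σ τ) X) D) ↔ EAE (compact3 s t D) := by
  have key : ∀ (σ τ ζ : ℕ → Bool) (X : U → Bool),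
      (∀ u ∈ uvars D, X u = ζ (s.length + t.length + index (uvars D) u)) →
      (Holds (Sum.elim (mix s.length σ τ) X) D ↔
        Tr (compact3 s t D).2.2.2 (mix3 s.length t.length σ τ ζ)) := by
    intro σ τ ζ X hX
    have hlit : ∀ c ∈ D, ∀ l ∈ c, Sum.elim (mix s.length σ τ) X l.2 =
        mix3 s.length t.length σ τ ζ (ren (s.length + t.length) (uvars D) l).2 := by
      rintro c hc ⟨b, v⟩ hl
      cases v with
      | inl i =>
        have := hD c hc _ hl i rfl
        have e : (ren (s.length + t.length) (uvars D) (b, Sum.inl i)).2 = i := rfl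
        rw [e]
        change mix s.length σ τ i = _
        unfold mix mix3
        by_cases h : i < s.length
        · rw [if_pos h, if_pos h]
        · rw [if_neg h, if_neg h, if_pos this]
      | inr u =>
        have e : (ren (s.length + t.length) (uvars D) (b, Sum.inr u)).2 =
          s.length + t.length + index (uvars D) u := rfl
        rw [e]
        change X u = _
        unfold mix3
        rw [if_neg (by omega), if_neg (by omega), hX u (mem_uvars hc hl)]
    simp only [compact3, Tr, Holds]
    constructor
    · intro h c hc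
      rw [List.mem_map] at hc
      obtain ⟨c', hc', rfl⟩ := hc
      obtain ⟨l, hl, hl2⟩ := h c' hc'
      refine ⟨_, List.mem_map.2 ⟨l, hl, rfl⟩, ?_⟩
      rw [← hlit c' hc' l hl, hl2]
      rfl
    · intro h c hc
      obtain ⟨l, hl, hl2⟩ := h _ (List.mem_map.2 ⟨c, hc, rfl⟩)
      rw [List.mem_map] at hl
      obtain ⟨l', hl', rfl⟩ := hl
      refine ⟨l', hl', ?_⟩
      rw [hlit c hc l' hl', hl2]
      rfl
  unfold EAE
  constructor
  · rintro ⟨σ, hσ⟩
    refine ⟨σ, fun τ => ?_⟩
    obtain ⟨X, hX⟩ := hσ τ
    refine ⟨fun n => match (uvars D)[n - (s.length + t.length)]? with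
      | none => false
      | some u => X u, ?_⟩
    refine (key σ τ _ X ?_).1 hX
    intro u hu
    rw [Nat.add_sub_cancel_left, getElem?_index hu]
  · rintro ⟨σ, hσ⟩
    refine ⟨σ, fun τ => ?_⟩
    obtain ⟨ζ, hζ⟩ := hσ τ
    exact ⟨fun u => ζ (s.length + t.length + index (uvars D) u),
      (key σ τ ζ _ (fun _ _ => rfl)).2 hζ⟩

theorem poly_compact3 {α : Type} [TEnc α] {s t : α → List Unit}
    {D : α → List (List (Bool × (ℕ ⊕ U)))} (hs : Poly s) (ht : Poly t) (hD : Poly D) :
    Poly (fun a => compact3 (s a) (t a) (D a)) := by
  have hu : Poly (fun a => uvars (D a)) := by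
    refine Poly.flatMap (F := fun _ (l : Bool × (ℕ ⊕ U)) =>
      Sum.elim (fun _ => ([] : List U)) (fun u => [u]) l.2) (Poly.flatten hD) ?_
    exact poly_sumElim (o := fun x : α × (Bool × (ℕ ⊕ U)) => x.2.2)
      (g := fun _ _ => ([] : List U)) (h := fun _ u => [u])
      (Poly.snd (Poly.snd Poly.id)) (Poly.const []) (Poly.cons (Poly.snd Poly.id) (Poly.const []))
  refine Poly.pair hs (Poly.pair ht (Poly.pair (Poly.cons (Poly.const ()) (Poly.map
    (F := fun _ _ => ()) hu (Poly.const ()))) ?_))
  refine Poly.map (F := fun a c => c.map (ren ((s a).length + (t a).length) (uvars (D a)))) hD ?_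
  refine Poly.map (F := fun (p : α × List (Bool × (ℕ ⊕ U))) l =>
    ren ((s p.1).length + (t p.1).length) (uvars (D p.1)) l) (Poly.snd Poly.id) ?_
  have f1 : Poly (fun x : (α × List (Bool × (ℕ ⊕ U))) × (Bool × (ℕ ⊕ U)) => x.1.1) :=
    Poly.fst (Poly.fst Poly.id)
  refine Poly.pair (Poly.fst (Poly.snd Poly.id)) ?_
  exact poly_sumElim (o := fun x : (α × List (Bool × (ℕ ⊕ U))) × (Bool × (ℕ ⊕ U)) => x.2.2)
    (g := fun _ i => i) (h := fun (x : (α × List (Bool × (ℕ ⊕ U))) ×
    (Bool × (ℕ ⊕ U))) u => (s x.1.1).length + (t x.1.1).length + index (uvars (D x.1.1)) u)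
    (Poly.snd (Poly.snd Poly.id)) (Poly.snd Poly.id)
    (Poly.add (Poly.add (Poly.length (hs.comp (f1.comp (Poly.fst Poly.id))))
      (Poly.length (ht.comp (f1.comp (Poly.fst Poly.id)))))
      (Poly.index (hu.comp (f1.comp (Poly.fst Poly.id))) (Poly.snd Poly.id)))

end Compact

theorem pi3_tab {L : Set (List Bool)} (hL : InPi3 L) :
    ∃ (tm : FinTM2) (inE : tm.Γ tm.k₀ ≃ Bool) (outE : tm.Γ tm.k₁ ≃ Bool) (p R : Polynomial ℕ),
      ∀ x, x ∉ L ↔ ∃ σ : ℕ → Bool, ∀ τ : ℕ → Bool, ∃ X, Holds
        (Sum.elim (mix (p.eval x.length) σ τ) X)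
        (GG (tab tm inE outE) (2 * p.eval x.length) (3 * p.eval x.length)
        (pairPre x) (R.eval x.length)) := by
  obtain ⟨V, p, hV, hL⟩ := hL
  have hV' : PolyTime (fun z => [!decide (V z = [true])]) :=
    polyTime_test hV (g := fun w => !decide (w = [true]))
      (Poly.not (Poly.decide_eq Poly.id (Poly.const [true])))
  obtain ⟨hW⟩ := hV'
  refine ⟨hW.tm, hW.inputAlphabet, hW.outputAlphabet, p,
    (hW.time.comp (Polynomial.C 2 * Polynomial.X + Polynomial.C 1 + Polynomial.C 3 * p)) *
      Polynomial.C (maxDepth hW.tm), fun x => ?_⟩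
  set N := (((hW.time.comp (Polynomial.C 2 * Polynomial.X + Polynomial.C 1 +
      Polynomial.C 3 * p)) * Polynomial.C (maxDepth hW.tm)).eval x.length) with hN
  have key : ∀ w : List Bool, w.length ≤ 3 * p.eval x.length →
      ([!decide (V (pairBits x w) = [true])] = [true] ↔
        Accepts (tab hW.tm hW.inputAlphabet hW.outputAlphabet)
        (run (tab hW.tm hW.inputAlphabet hW.outputAlphabet) (3 * p.eval x.length) (pairPre x) w
          N)) := by
    intro w hw
    rw [pairBits_eq]
    refine tab_correct hW.tm hW.inputAlphabet hW.outputAlphabet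
      (fun z => [!decide (V z = [true])]) _ _ _ _ _ hw
      (hW.outputsFun (pairPre x ++ w)) ?_
    rw [hN, Polynomial.eval_mul, Polynomial.eval_C, Polynomial.eval_comp]
    refine Nat.mul_le_mul_right _ (eval_mono _ ?_)
    simp only [id_eq, List.length_append, pairPre_length, Polynomial.eval_add,
      Polynomial.eval_mul, Polynomial.eval_C, Polynomial.eval_X]
    omega
  have hsym : Function.Injective (tab hW.tm hW.inputAlphabet hW.outputAlphabet).sym := by
    intro a b h
    have h1 : (Sum.inl (hW.inputAlphabet.symm a) : NA hW.tm) =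
        Sum.inl (hW.inputAlphabet.symm b) := h
    exact hW.inputAlphabet.symm.injective (Sum.inl_injective h1)
  have hGG := fun Y : ℕ → Bool => GG_iff (D := tab hW.tm hW.inputAlphabet hW.outputAlphabet)
    (fun q => by simp [tab]) (fun k => by simp [tab]) (fun o => by simp [tab]) hsym
    (q := 2 * p.eval x.length) (P := 3 * p.eval x.length) (by omega) (y := pairPre x) (N := N)
    (Y := Y)
  rw [hL x]
  generalize hk : p.eval x.length = k at *
  constructor
  · intro hno
    push Not at hno
    obtain ⟨u, hu, hall⟩ := hno
    refine ⟨fun i => u.getD i false, fun τ => ?_⟩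
    obtain ⟨w, hw, hne⟩ := hall ((List.range k).map fun i => τ (k + i)) (by simp)
    have hacc := (key (u ++ ((List.range k).map (fun i => τ (k + i)) ++ w)) (by
      simp only [List.length_append, List.length_map, List.length_range]; omega)).1
      (by simp [hne])
    refine (hGG _).2 ⟨_, by
      simp only [List.length_append, List.length_map, List.length_range]; omega, ?_, hacc⟩
    intro i hi
    by_cases h1 : i < k
    · rw [List.getElem?_append_left (by omega)]
      simp only [mix, if_pos h1]
      rw [List.getD_eq_getElem?_getD, List.getElem?_eq_getElem (by omega)]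
      rfl
    · rw [List.getElem?_append_right (by omega), List.getElem?_append_left (by
        simp only [List.length_map, List.length_range]; omega), List.getElem?_map,
        List.getElem?_range (by omega)]
      simp only [mix, if_neg h1, Option.map_some]
      congr 2
      omega
  · rintro ⟨σ, hσ⟩ hall
    obtain ⟨v, hv, hv2⟩ := hall ((List.range k).map σ) (by simp)
    obtain ⟨X, hX⟩ := hσ (fun i => v.getD (i - k) false)
    obtain ⟨w, hw, hwY, hacc⟩ := (hGG _).1 ⟨X, hX⟩
    rw [← key w hw.le] at hacc
    have h1 : w = (List.range k).map σ ++ (v ++ w.drop (2 * k)) := by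
      apply List.ext_getElem?
      intro i
      by_cases h1 : i < k
      · rw [hwY i (by omega), List.getElem?_append_left (by simpa using h1), List.getElem?_map,
          List.getElem?_range h1]
        simp only [mix, if_pos h1, Option.map_some]
      · rw [List.getElem?_append_right (by simpa using h1)]
        simp only [List.length_map, List.length_range]
        by_cases h2 : i < 2 * k
        · rw [hwY i h2, List.getElem?_append_left (by omega)]
          simp only [mix, if_neg h1]
          rw [List.getD_eq_getElem?_getD, List.getElem?_eq_getElem (by omega)]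
          rfl
        · rw [List.getElem?_append_right (by omega), List.getElem?_drop]
          congr 1
          omega
    have h2 := hv2 (w.drop (2 * k)) (by rw [List.length_drop]; omega)
    rw [← h1] at h2
    rw [h2] at hacc
    simp at hacc

/-- **`Π₃ᵖ`-hardness from a reduction of quantified formulas.** -/
theorem pi3Hard_of {α : Type} [TEnc α] {P : α → Prop} {f : QI → α} (hf : Poly f)
    (h : ∀ I, EAEPr I → (EAE I ↔ ¬ P (f I))) : Pi3Hard (lang P) := by
  intro L hL
  obtain ⟨tm, inE, outE, p, R, h'⟩ := pi3_tab hL
  let _ := encFintype (NQ tm)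
  let _ := encFintype tm.K
  let _ := encFintype (NA tm)
  let F : List Bool → List (List (Bool × (ℕ ⊕ Var (NQ tm) tm.K (NA tm)))) := fun x =>
    GG (tab tm inE outE) (2 * p.eval x.length) (3 * p.eval x.length) (pairPre x)
      (R.eval x.length)
  let S : List Bool → List Unit := fun x => List.replicate (p.eval x.length) ()
  have hS : Poly S := UPoly.eval (UPoly.length Poly.id) p
  have hp : UPoly (fun x : List Bool => p.eval x.length) := UPoly.eval (UPoly.length Poly.id) p
  have hP : UPoly (fun x : List Bool => 3 * p.eval x.length) := UPoly.mul (UPoly.const 3) hp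
  have hQ : UPoly (fun x : List Bool => 2 * p.eval x.length) := UPoly.mul (UPoly.const 2) hp
  have hF : Poly F := by
    refine Poly.append ?_ (Poly.append ?_ ?_)
    · exact Poly.map (F := fun (_ : List Bool) (c : List (Bool × Var (NQ tm) tm.K (NA tm))) =>
          c.map (fun l => (l.1, (Sum.inr l.2 : ℕ ⊕ Var (NQ tm) tm.K (NA tm)))))
        (pFormula (tab tm inE outE) hP (pPre Poly.id)
          (UPoly.eval (UPoly.length Poly.id) R))
        (Poly.map (F := fun (_ : List Bool × List (Bool × Var (NQ tm) tm.K (NA tm)))
          (l : Bool × Var (NQ tm) tm.K (NA tm)) =>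
          (l.1, (Sum.inr l.2 : ℕ ⊕ Var (NQ tm) tm.K (NA tm)))) (Poly.snd Poly.id)
          (Poly.pair (Poly.fst (Poly.snd Poly.id)) (Poly.inr (Poly.snd (Poly.snd Poly.id)))))
    · exact Poly.map (F := fun _ j => [(false, Sum.inr (Var.ce 0 (tab tm inE outE).k₀ j none))])
        hP.range (pList1 (Poly.pair (Poly.const false) (Poly.inr (pCe (Poly.const 0)
          (Poly.const _) (Poly.snd Poly.id) (Poly.const none)))))
    · refine Poly.flatMap (F := fun (x : List Bool) i =>
        [[(false, Sum.inr (Var.ce 0 (tab tm inE outE).k₀ (3 * p.eval x.length - 1 - i)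
            (some ((tab tm inE outE).sym true)))), (true, Sum.inl i)],
          [(false, Sum.inr (Var.ce 0 (tab tm inE outE).k₀ (3 * p.eval x.length - 1 - i)
            (some ((tab tm inE outE).sym false)))), (false, Sum.inl i)]]) hQ.range ?_
      have hidx : Poly (fun z : List Bool × ℕ => 3 * p.eval z.1.length - 1 - z.2) :=
        Poly.sub (Poly.sub (hP.toPoly.comp (Poly.fst Poly.id)) (Poly.const 1))
          (Poly.snd Poly.id)
      exact pList2
        (pList2 (Poly.pair (Poly.const false) (Poly.inr (pCe (Poly.const 0) (Poly.const _) hidx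
          (Poly.const _)))) (Poly.pair (Poly.const true) (Poly.inl (Poly.snd Poly.id))))
        (pList2 (Poly.pair (Poly.const false) (Poly.inr (pCe (Poly.const 0) (Poly.const _) hidx
          (Poly.const _)))) (Poly.pair (Poly.const false) (Poly.inl (Poly.snd Poly.id))))
  have hpr : ∀ x, ∀ c ∈ F x, ∀ l ∈ c, ∀ i, l.2 = Sum.inl i → i < (S x).length + (S x).length := by
    intro x c hc l hl i hi
    simp only [S, List.length_replicate]
    simp only [F] at hc
    rw [GG, List.mem_append, List.mem_append] at hc
    rcases hc with hc | hc | hc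
    · rw [List.mem_map] at hc
      obtain ⟨c0, _, rfl⟩ := hc
      rw [List.mem_map] at hl
      obtain ⟨l1, _, rfl⟩ := hl
      simp at hi
    · rw [List.mem_map] at hc
      obtain ⟨j, _, rfl⟩ := hc
      rw [List.mem_singleton] at hl
      subst hl
      simp at hi
    · rw [List.mem_flatMap] at hc
      obtain ⟨j, hj, hc⟩ := hc
      have hj := List.mem_range.1 hj
      simp only [List.mem_cons, List.not_mem_nil, or_false] at hc
      rcases hc with rfl | rfl
      · simp only [List.mem_cons, List.not_mem_nil, or_false] at hl
        rcases hl with rfl | rfl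
        · simp at hi
        · simp only [Sum.inl.injEq] at hi
          omega
      · simp only [List.mem_cons, List.not_mem_nil, or_false] at hl
        rcases hl with rfl | rfl
        · simp at hi
        · simp only [Sum.inl.injEq] at hi
          omega
  have hC : Poly (fun x : List Bool => f (compact3 (S x) (S x) (F x))) :=
    hf.comp (poly_compact3 hS hS hF)
  refine ⟨fun x => bits (f (compact3 (S x) (S x) (F x))), PC.toPolyTime ?_, fun x => ?_⟩
  · exact PC.comp (ea := fun x : List Bool => x) (eb := (bits : List Bool → List Bool))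
      (ec := bits) (g := fun x : List Bool => f (compact3 (S x) (S x) (F x))) (f := fun x => x)
      hC PC.ofBits
  · rw [bits_mem_lang]
    have h1 := h' x
    have h2 := compact3_iff (s := S x) (t := S x) (hpr x)
    have h3 := h _ (compact3_pr (hpr x))
    have h4 : (S x).length = p.eval x.length := by simp [S]
    rw [h4] at h2
    have h5 : x ∉ L ↔ ¬ P (f (compact3 (S x) (S x) (F x))) := by
      rw [h1, ← h3, ← h2]
    tauto

end Pool.Agent.NPC.P3
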