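import Pool.Agent.NPC.Defs

/-!
# The class `Π₃ᵖ`: definitions
-/

namespace Pool.Agent.NPC.P3

/-- The class `Π₃ᵖ`: `x ∈ L` iff for all strings `u` of length `p(|x|)` there is a string `v` of
length `p(|x|)` such that for all strings `w` of length `p(|x|)` the polynomial-time predicate `V`
accepts `(x, u ++ (v ++ w))`. -/
def InPi3 (L : Set (List Bool)) : Prop :=
  ∃ (V : List Bool → List Bool) (p : Polynomial ℕ), PolyTime V ∧
    ∀ x, x ∈ L ↔ ∀ u : List Bool, u.length = p.eval x.length →
      ∃ v : List Bool, v.length = p.eval x.length ∧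
        ∀ w : List Bool, w.length = p.eval x.length → V (pairBits x (u ++ (v ++ w))) = [true]

/-- `Π₃ᵖ`-hardness under polynomial-time many-one reductions. -/
def Pi3Hard (L : Set (List Bool)) : Prop := ∀ L', InPi3 L' → Reduces L' L

/-- `Π₃ᵖ`-completeness under polynomial-time many-one reductions. -/
def Pi3Complete (L : Set (List Bool)) : Prop := InPi3 L ∧ Pi3Hard L

end Pool.Agent.NPC.P3
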